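import Pool.Agent.H44.AR.BasicA
import Pool.Agent.H21.EQ.CNG

/-!
# All reducts, all arities: canonization of ordered types of tuples of values
-/

set_option autoImplicit false

namespace Pool.Agent.H77.AR

open Pool.Agent.H68.BP Pool.Agent.H58.SF Pool.Agent.H53.GC Pool.Agent.H53.NR Pool.Agent.H53.GR
open Pool.Agent.H57.AR Pool.Agent.H44.AR
open Pool.Agent.H57.SO (Pal Col vt Sb FBl)
open Pool.Agent.H57.EQ (Cx)
open Pool.Agent.H53.RG (cone cone_mem)

namespace CANR

variable {T Z : Type} {ρ : Sig}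

/-- the limit of ordered types -/
def lim (U : Ultrafilter T) (H : T → OT ρ Z) : OT ρ Z :=
  (fun l z => ∀ᶠ t in (U : Filter T), (H t).1 l z, fun a b => ∀ᶠ t in (U : Filter T), (H t).2 a b)

theorem ev_iff (U : Ultrafilter T) (p : T → Prop) :
    ∀ᶠ t in (U : Filter T), ((∀ᶠ s in (U : Filter T), p s) ↔ p t) := by
  by_cases h : ∀ᶠ s in (U : Filter T), p s
  · filter_upwards [h] with t ht
    exact ⟨fun _ => ht, fun _ => h⟩
  · have h1 : ∀ᶠ s in (U : Filter T), ¬ p s := Ultrafilter.eventually_not.2 h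
    filter_upwards [h1] with t ht
    exact ⟨fun h' => absurd h' h, fun h' => absurd h' ht⟩

theorem lim_spec (U : Ultrafilter T) (H : T → OT ρ Z) {k : ℕ} (v : Fin k → Z) :
    ∀ᶠ t in (U : Filter T), pullO (lim U H) v = pullO (H t) v := by
  have h1 : ∀ᶠ t in (U : Filter T), ∀ (l : Fin ρ.m) (z : Fin (ρ.ar l) → Fin k),
      ((∀ᶠ s in (U : Filter T), (H s).1 l (fun i => v (z i))) ↔ (H t).1 l (fun i => v (z i))) :=
    Filter.eventually_all.2 fun l => Filter.eventually_all.2 fun z => ev_iff U _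
  have h2 : ∀ᶠ t in (U : Filter T), ∀ (a b : Fin k),
      ((∀ᶠ s in (U : Filter T), (H s).2 (v a) (v b)) ↔ (H t).2 (v a) (v b)) :=
    Filter.eventually_all.2 fun a => Filter.eventually_all.2 fun b => ev_iff U _
  filter_upwards [h1, h2] with t h3 h4
  exact Prod.ext (funext fun l => funext fun z => propext (h3 l z))
    (funext fun a => funext fun b => propext (h4 a b))

theorem ev_mem {k : ℕ} (v : Fin k → Z) :
    ∀ᶠ F in ((cone Z : Ultrafilter (Finset Z)) : Filter (Finset Z)), ∀ a, v a ∈ F := by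
  refine Filter.eventually_all.2 fun a => ?_
  filter_upwards [cone_mem {v a}] with F hF
  exact hF (Finset.mem_singleton_self _)

/-- the limit of local maps -/
theorem exists_h0 {V I : Type} {R : (k : ℕ) → (Fin k → I → V) → OT ρ (Fin k) → Prop}
    (hG : ∀ (W : Type) [Finite W] (G : I → W → V), (∀ u w, (∀ i, G i u = G i w) → u = w) →
      ∃ t : OT ρ W, ∀ (k : ℕ) (z : Fin k → W), R k (fun a i => G i (z a)) (pullO t z)) :
    ∃ h : OT ρ (I → V), ∀ (k : ℕ) (v : Fin k → I → V), R k v (pullO h v) := by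
  classical
  have h1 : ∀ F : Finset (I → V), ∃ t : OT ρ F, ∀ (k : ℕ) (z : Fin k → F),
      R k (fun a i => (z a : I → V) i) (pullO t z) := fun F =>
    hG F (fun i w => (w : I → V) i) fun u w h => Subtype.ext (funext h)
  choose t ht using h1
  let H : Finset (I → V) → OT ρ (I → V) := fun F =>
    (fun l z => ∃ hz : ∀ i, z i ∈ F, (t F).1 l (fun i => ⟨z i, hz i⟩),
      fun a b => ∃ (ha : a ∈ F) (hb : b ∈ F), (t F).2 ⟨a, ha⟩ ⟨b, hb⟩)
  refine ⟨lim (cone (I → V)) H, fun k v => ?_⟩
  obtain ⟨F, hF1, hF2⟩ := ((lim_spec (cone (I → V)) H v).and (ev_mem v)).exists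
  rw [hF1]
  have e : pullO (H F) v = pullO (t F) (fun a => ⟨v a, hF2 a⟩) := by
    refine Prod.ext ?_ ?_
    · funext l z
      exact propext ⟨fun ⟨_, h⟩ => h, fun h => ⟨fun i => hF2 _, h⟩⟩
    · funext a b
      exact propext ⟨fun ⟨_, _, h⟩ => h, fun h => ⟨hF2 a, hF2 b, h⟩⟩
  rw [e]
  exact ht F k (fun a => ⟨v a, hF2 a⟩)

end CANR

open CANR

theorem pf_CANR : T_CANR := by
  classical
  intro ρ ρ' V I _ hI 𝔹 hne har hRam R hinv hG
  obtain ⟨h0, hh0⟩ := exists_h0 hG
  let N : ℕ := 2 + ∑ l, ρ'.ar l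
  have hN : ∀ l, ρ'.ar l ≤ N := fun l =>
    (Finset.single_le_sum (f := fun l => ρ'.ar l) (fun _ _ => Nat.zero_le _)
      (Finset.mem_univ l)).trans (Nat.le_add_left _ _)
  have hfin : Finite (OT ρ' (Fin N)) := by
    unfold OT Str
    infer_instance
  have hfin' : Finite (Fin N × I) := inferInstance
  obtain ⟨n, ⟨d⟩⟩ := Finite.exists_equiv_fin (Fin N × I)
  obtain ⟨k, ⟨e⟩⟩ := Finite.exists_equiv_fin (OT ρ' (Fin N))
  choose g hg1 hg2 hg3 using fun K : Finset V => hRam n k K
    (fun z => e (pullO h0 (fun (a : Fin N) i => z (d (a, i)))))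
  let H : Finset V → OT ρ' (I → V) := fun K => pullO h0 (fun v i => g K (v i))
  -- values in a finite set
  have hmem : ∀ {k : ℕ} (v : Fin k → I → V),
      ∀ᶠ K in ((cone V : Ultrafilter (Finset V)) : Filter (Finset V)), ∀ a i, v a i ∈ K := by
    intro k v
    refine Filter.eventually_all.2 fun a => Filter.eventually_all.2 fun i => ?_
    filter_upwards [cone_mem {v a i}] with F hF
    exact hF (Finset.mem_singleton_self _)
  -- long tuples
  have key : ∀ v v' : Fin N → I → V,
      SameTp 𝔹 (fun q : Fin N × I => v q.1 q.2) (fun q => v' q.1 q.2) →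
        pullO (lim (cone V) H) v = pullO (lim (cone V) H) v' := by
    intro v v' hv
    obtain ⟨K, ⟨⟨⟨h1, h2⟩, h3⟩, h4⟩⟩ := ((((lim_spec (cone V) H v).and
      (lim_spec (cone V) H v')).and (hmem v)).and (hmem v')).exists
    rw [h1, h2]
    have h5 := hg3 K (fun j => v (d.symm j).1 (d.symm j).2) (fun j => v' (d.symm j).1 (d.symm j).2)
      (fun j => h3 _ _) (fun j => h4 _ _)
      ⟨fun i j => hv.1 (d.symm i) (d.symm j),
        congrArg (fun t => pull t d.symm) hv.2⟩
    have h6 := e.injective h5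
    simp only [Equiv.symm_apply_apply] at h6
    exact h6
  -- short tuples
  have key2 : ∀ (j : ℕ), 1 ≤ j → j ≤ N → ∀ v v' : Fin j → I → V,
      SameTp 𝔹 (fun q : Fin j × I => v q.1 q.2) (fun q => v' q.1 q.2) →
        pullO (lim (cone V) H) v = pullO (lim (cone V) H) v' := by
    intro j hj hjN v v' hv
    let s : Fin N → Fin j := fun i => if h : (i : ℕ) < j then ⟨i, h⟩ else ⟨0, hj⟩
    have hs : ∀ i : Fin j, s (Fin.castLE hjN i) = i := by
      intro i
      have h1 : ((Fin.castLE hjN i : Fin N) : ℕ) < j := by simp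
      simp only [s]
      rw [dif_pos h1]
      rfl
    have h1 := key (fun i => v (s i)) (fun i => v' (s i))
      ⟨fun p q => hv.1 (s p.1, p.2) (s q.1, q.2),
        congrArg (fun t => pull t (fun q : Fin N × I => (s q.1, q.2))) hv.2⟩
    have h2 := congrArg (fun t => pullO t (Fin.castLE hjN)) h1
    simp only [pullO_pullO, hs] at h2
    exact h2
  refine ⟨lim (cone V) H, fun k v v' hv => ?_, fun k v => ?_⟩
  · refine Prod.ext ?_ ?_
    · funext l z
      have h1 := key2 (ρ'.ar l) (har l) (hN l) (fun i => v (z i)) (fun i => v' (z i))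
        ⟨fun p q => hv.1 (z p.1, p.2) (z q.1, q.2),
          congrArg (fun t => pull t (fun q : Fin (ρ'.ar l) × I => (z q.1, q.2))) hv.2⟩
      exact congrFun (congrFun (congrArg Prod.fst h1) l) (fun i => i)
    · funext a b
      have h1 := key2 2 (by norm_num) (Nat.le_add_right _ _) (fun i => v (![a, b] i))
        (fun i => v' (![a, b] i))
        ⟨fun p q => hv.1 (![a, b] p.1, p.2) (![a, b] q.1, q.2),
          congrArg (fun t => pull t (fun q : Fin 2 × I => (![a, b] q.1, q.2))) hv.2⟩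
      exact congrFun (congrFun (congrArg Prod.snd h1) 0) 1
  · obtain ⟨K, h1, h2⟩ := ((lim_spec (cone V) H v).and (hmem v)).exists
    rw [h1]
    refine hinv k (fun a i => g K (v a i)) v _ ⟨fun p q => ?_, ?_⟩ (hh0 k _)
    · constructor
      · intro h3
        by_contra h4
        rcases (not_lt.1 h4).lt_or_eq with h5 | h5
        · exact lt_asymm h3 (hg1 K _ (h2 _ _) _ (h2 _ _) h5)
        · have h6 : v q.1 q.2 = v p.1 p.2 := h5
          have h7 : g K (v p.1 p.2) < g K (v q.1 q.2) := h3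
          rw [h6] at h7
          exact lt_irrefl _ h7
      · exact hg1 K _ (h2 _ _) _ (h2 _ _)
    · funext l z
      exact propext (hg2 K l _ fun i => h2 _ _)

end Pool.Agent.H77.AR
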