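import Pool.Agent.H44.AR.BasicA
import Pool.Agent.H68.GC.POW

/-!
# All reducts, all arities: the map on the sixth power for a colouring of tuples
-/

set_option autoImplicit false

namespace Pool.Agent.H77.AR

open Pool.Agent.H68.BP Pool.Agent.H58.SF Pool.Agent.H53.GC Pool.Agent.H53.NR Pool.Agent.H53.GR
open Pool.Agent.H57.AR Pool.Agent.H44.AR
open Pool.Agent.H57.SO (Pal Col vt Sb FBl)
open Pool.Agent.H57.EQ (Cx)
open Pool.Agent.H53.RG
open Pool.Agent.H68.GC (pppower_strOn relAt relAt_finite relAt_holds ols_pat hom_strOn poly_strOn)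

namespace PWG

variable {σ : Sig} {V Z : Type}

/-- The relation on `M`-tuples. -/
def relGw (𝔸 : Str σ V) (M : ℕ) (s : Option (Fin σ.m))
    (P : (Fin M → Fin (arP σ M s)) → Fin M → V) : Prop :=
  ∃ x : Fin (arP σ M s) → V, relP 𝔸 M s x ∧ ∀ α, P α = fun i => x (α i)

/-- Its image. -/
def relGu (𝔸 : Str σ V) (M : ℕ) (χ : (Fin M → V) → Z) (s : Option (Fin σ.m))
    (t : (Fin M → Fin (arP σ M s)) → Z) : Prop :=
  ∃ x : Fin (arP σ M s) → V, relP 𝔸 M s x ∧ ∀ α, t α = χ (fun i => x (α i))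

theorem relGw_pp (𝔸 : Str σ V) (M : ℕ) (s : Option (Fin σ.m)) :
    PPDefinable 𝔸 {z : (Fin M → Fin (arP σ M s)) × Fin M → V |
      relGw 𝔸 M s (fun p i => z (p, i))} := by
  classical
  let Y : Type := Fin (arP σ M s)
  let P : Type := (Fin M → Y) × Fin M
  let Φ : Set (Atom σ (P ⊕ Y)) := relAt σ M P s ∪
      Set.range (fun p : P => (Atom.eq (Sum.inl p) (Sum.inr (p.1 p.2)) : Atom σ (P ⊕ Y)))
  have hΦ : Φ.Finite := (relAt_finite M P s).union (Set.finite_range _)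
  have h1 := ppDefinable_of_finite (𝔸 := 𝔸) Φ hΦ
  have h2 : {z : P → V | relGw 𝔸 M s (fun p i => z (p, i))} =
      {x : P → V | ∃ y : Y → V, ∀ a ∈ Φ, a.Holds 𝔸 (Sum.elim x y)} := by
    ext z
    constructor
    · rintro ⟨x, hx1, hx3⟩
      refine ⟨x, ?_⟩
      rintro a (ha | ha)
      · exact (relAt_holds 𝔸 M P s z x).2 hx1 a ha
      · obtain ⟨p, rfl⟩ := ha
        exact congrFun (hx3 p.1) p.2
    · rintro ⟨x, hx⟩
      refine ⟨x, ?_, ?_⟩
      · exact (relAt_holds 𝔸 M P s z x).1 fun a ha => hx a (Or.inl ha)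
      · intro α
        funext i
        exact hx _ (Or.inr ⟨(α, i), rfl⟩)
  change PPDefinable 𝔸 {z : P → V | relGw 𝔸 M s (fun p i => z (p, i))}
  rw [h2]
  exact h1

theorem pat_fn {X I : Type} (r : Fin 3) (x y : I → X) :
    (fun (c : Fin 6) (i : I) => pat r (x i) (y i) c) = pat r x y := by
  funext c i
  fin_cases r <;> fin_cases c <;> rfl

end PWG

open PWG

theorem pf_PWG : T_PWG := by
  classical
  intro σ V Z hZ 𝔸 M χ hV hne hM hol hK
  by_contra hcon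
  apply hK
  have hVc : Countable V := hV
  let ℙ := strOn (relGw 𝔸 M)
  let 𝕋 := strOn (relGu 𝔸 M χ)
  have hP : PPPower 𝔸 M ℙ := pppower_strOn _ (relGw_pp 𝔸 M)
  have hne' : Nonempty (Fin M → V) := inferInstance
  refine Pool.Agent.H51.SF.pf_TR _ _ V 𝔸 M ℙ hM hP ?_
  refine Pool.Agent.H53.FC.K3_of_no_olsak (𝔸 := ℙ) (𝕋 := 𝕋) inferInstance
    (Pool.Agent.H81.SF.pf_PO _ _ V 𝔸 M ℙ hP hol) ⟨χ, ?_⟩ ?_
  · refine (hom_strOn _ _ _).2 ?_
    rintro s P ⟨x, hx1, hx3⟩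
    refine ⟨x, hx1, fun α => ?_⟩
    change χ (P α) = _
    rw [hx3 α]
  · intro h0 hpoly ho
    apply hcon
    have hp := (poly_strOn _ _ _).1 hpoly
    refine ⟨fun v => h0 (fun c i => v i c), ?_, ?_⟩
    · intro s v hv
      obtain ⟨x, hx1, hx3⟩ := hp s (fun c α i => v (α i) c)
        (fun c => ⟨fun a => v a c, hv c, fun α => rfl⟩)
      exact ⟨x, hx1, fun α => (hx3 α).symm⟩
    · intro r x y
      change h0 (fun c i => pat r (x i) (y i) c) = h0 (fun c i => pat 0 (x i) (y i) c)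
      rw [pat_fn, pat_fn]
      exact ols_pat ho r _ _

end Pool.Agent.H77.AR
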