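import Pool.Agent.H57.AR.Targets
import Pool.Agent.H44.SO.Basic

/-!
# All reducts, all arities: composition with copies of local maps
-/

set_option autoImplicit false
set_option linter.unusedVariables false

namespace Pool.Agent.H77.AR

open Pool.Agent.H68.BP Pool.Agent.H58.SF Pool.Agent.H53.GC Pool.Agent.H53.NR Pool.Agent.H53.GR
open Pool.Agent.H57.AR
open Pool.Agent.H57.SO (Pal Col vt Exa Sb FBl Sbn Bh fib sigF Same Uni Can Stp)
open Pool.Agent.H44.SO (ZS JS Loc OfT LInj sig0 str0 B2 vt_of)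
open Pool.Agent.H44.EQ (BinPol sel kap)
open Pool.Agent.H57.EQ (Cx)
open Function

namespace CMPR

/-- equal types give equal colours -/
theorem c_of_tp {V S X W : Type} {ρ : Sig} {P : Pal S X} {𝔹 : Str ρ V} {c : V → V → S ⊕ X}
    (hL : Lnk P 𝔹 c) {x y : W → V} (h : tp 𝔹 x = tp 𝔹 y) (a b : W) :
    c (x a) (x b) = c (y a) (y b) := by
  rw [hL.eq]
  refine ⟨iff_of_eq (congrFun (congrFun (congrArg Prod.fst h) a) b), fun l f => ?_⟩
  have h1 := congrFun (congrFun (congrArg Prod.snd h) l) (fun i => if f i = true then b else a)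
  have e : ∀ x : W → V, (fun i => if f i = true then x b else x a) =
      fun i => x (if f i = true then b else a) := by
    intro x
    funext i
    rw [apply_ite x]
  rw [e x, e y]
  exact iff_of_eq h1

theorem two_left {V W : Type} {ρ : Sig} {𝔹 : Str ρ V} {x : W → V}
    (h : Two 𝔹 (Sum.elim x x)) : Two 𝔹 x := by
  intro l z hz
  obtain ⟨a, b, hab⟩ := h l (fun i => Sum.inl (z i)) hz
  refine ⟨Sum.elim id id a, Sum.elim id id b, fun i => ?_⟩
  rcases hab i with h1 | h1
  · left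
    rcases a with a | a
    · exact h1
    · exact h1
  · right
    rcases b with b | b
    · exact h1
    · exact h1

end CMPR

open CMPR

theorem pf_CMPR : T_CMPR := by
  intro σ ρ V S X _ P 𝔸 𝔹 M c hs h hh n q γ z hγ hz' hfr htwo hsep
  have hz : ∀ l p p', c (z p l) (z p' l) = c (γ l p) (γ l p') := fun l p p' =>
    c_of_tp hs.lnk (hz' l) p p'
  obtain ⟨δ, hCx, hδ⟩ := hh.can.comb (Fin n × Fin n) (fun i p => z p i)
  have hδ' : ∀ p p', c (δ p) (δ p') = h (z p) (z p') := hδ
  have hb : ∀ (s : S) (a b : Fin n), vt P c (q a) = s → vt P c (q b) = s →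
      FBl P c s (z (a, b)) := by
    intro s a b ha hb
    have h1 : ∀ l, c (z (a, b) l) (z (a, b) l) = Sum.inl s := by
      intro l
      rw [hz l (a, b) (a, b)]
      rw [← Pool.Agent.H44.SO.Col.vt_iff hs.lnk.col, (hγ l).typ a b (ha.trans hb.symm), ha]
    refine ⟨h1, fun l l' hne => ?_⟩
    rw [hfr (a, b) l l' hne, vt_of (h1 l), vt_of (h1 l')]
  refine ⟨δ, ⟨?_, ?_, ?_⟩, ?_⟩
  · intro l a b ha hb'
    refine hCx l (fun k => (a k, b k)) fun i => ?_
    exact hs.base.tyi l (fun k => γ i (a k, b k)) _ ((hγ i).pol l a b ha hb')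
      (congrArg (fun t => pullT t (fun k => (a k, b k))) (hz' i))
  · intro a b hab
    apply vt_of
    rw [hδ']
    exact hh.idem _ _ (hb _ a b rfl hab.symm) (two_left (htwo _ _))
  · intro a b a' b' h1 h2 h3 h4 h5 h6
    refine hh.ncol (vt P c (q a)) (z (a, b)) (z (a', b')) (hb _ a b rfl h1) (hb _ a' b' h2 h3)
      (htwo _ _) (hsep (vt P c (q a)) (a, b) (a', b') ⟨rfl, h1⟩ ⟨h2, h3⟩ h4 h5)
      (vt P c (δ (a', b'))) ?_
    rw [← hδ', h6]
    exact Pool.Agent.H44.SO.Col.vt hs.lnk.col _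
  · intro p p'
    rw [← hs.lnk.col.eq_iff, hδ']

end Pool.Agent.H77.AR
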