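import Pool.Agent.H57.AR.Targets
import Pool.Agent.H44.SO.Basic

/-!
# All reducts, all arities: canonical maps on the structure of pairs
-/

set_option autoImplicit false
set_option linter.unusedVariables false

namespace Pool.Agent.H77.AR

open Pool.Agent.H68.BP Pool.Agent.H58.SF Pool.Agent.H53.GC Pool.Agent.H53.NR Pool.Agent.H53.GR
open Pool.Agent.H57.AR
open Pool.Agent.H57.SO (Pal Col vt Exa Sb FBl Sbn Bh fib sigF Same Uni Can Stp)
open Pool.Agent.H44.SO (ZS JS Loc OfT LInj sig0 str0 B2 vt_of)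
open Pool.Agent.H44.EQ (BinPol sel kap)
open Pool.Agent.H57.EQ (Cx)
open Function

namespace SHB

section

variable {V V₀ S X I W Z : Type} [LinearOrder V] [LinearOrder V₀] {ρ σ : Sig} {P : Pal S X}
  {𝔹 : Str ρ V} {𝔸 : Str σ V} {c : V → V → S ⊕ X} {c₀ : V₀ → V₀ → S ⊕ X} {M : ℕ}

theorem SameTp.comp {x y : W → V} (h : SameTp 𝔹 x y) (s : Z → W) :
    SameTp 𝔹 (fun a => x (s a)) (fun a => y (s a)) :=
  ⟨fun i j => h.1 (s i) (s j), congrArg (fun t => pull t s) h.2⟩

/-- Restriction of a tuple without relations between more than two elements. -/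
theorem two_comp {x : W → V} (har : ∀ l, 1 ≤ ρ.ar l) (h : Two 𝔹 x) (s : Z → W) :
    Two 𝔹 (fun a => x (s a)) := by
  classical
  intro l z hz
  obtain ⟨a, b, hab⟩ := h l (fun i => s (z i)) hz
  have i0 : Fin (ρ.ar l) := ⟨0, har l⟩
  by_cases h1 : ∃ i, x (s (z i)) = x a
  · obtain ⟨i, hi⟩ := h1
    by_cases h2 : ∃ j, x (s (z j)) = x b
    · obtain ⟨j, hj⟩ := h2
      refine ⟨z i, z j, fun k => ?_⟩
      rcases hab k with h3 | h3
      · exact Or.inl (h3.trans hi.symm)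
      · exact Or.inr (h3.trans hj.symm)
    · refine ⟨z i, z i, fun k => ?_⟩
      rcases hab k with h3 | h3
      · exact Or.inl (h3.trans hi.symm)
      · exact absurd ⟨k, h3⟩ h2
  · refine ⟨z i0, z i0, fun k => ?_⟩
    have h3 : ∀ k, x (s (z k)) = x b := fun k =>
      (hab k).resolve_left fun h => h1 ⟨k, h⟩
    exact Or.inl ((h3 k).trans (h3 i0).symm)

theorem lik_self {W : Type} {y : I × W → V} {x : I × W → V₀} (har : ∀ l, 1 ≤ ρ.ar l)
    (h2 : Two 𝔹 y) (hy : ∀ a b, (y a < y b ↔ x a < x b) ∧ c (y a) (y b) = c₀ (x a) (x b))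
    (u w : W) :
    LikP 𝔹 c c₀ (fun i => y (i, u)) (fun i => y (i, w)) (fun i => x (i, u))
      (fun i => x (i, w)) := by
  have e : ∀ {T : Type} (f : I × W → T), (Sum.elim (fun i => f (i, u)) fun i => f (i, w)) =
      fun q : I ⊕ I => f (Sum.elim (fun i => (i, u)) (fun i => (i, w)) q) := by
    intro T f
    funext q
    rcases q with q | q <;> rfl
  refine ⟨?_, fun i j => ?_⟩
  · rw [e y]
    exact two_comp har h2 _
  · rw [e y, e x]
    exact ⟨(hy _ _).1.symm, (hy _ _).2.symm⟩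

theorem exists_lik [Finite I] (hSh : Shd P 𝔹 M c c₀) (z z' : I → V₀) :
    ∃ w w' : I → V, LikP 𝔹 c c₀ w w' z z' := by
  obtain ⟨y, h2, hy⟩ := hSh.lift (I ⊕ I) (Sum.elim z z')
  refine ⟨fun i => y (Sum.inl i), fun i => y (Sum.inr i), ?_⟩
  have e : (Sum.elim (fun i => y (Sum.inl i)) fun i => y (Sum.inr i)) = y := by
    funext q
    rcases q with q | q <;> rfl
  unfold LikP
  rw [e]
  exact ⟨h2, fun i j => ⟨(hy i j).1.symm, (hy i j).2.symm⟩⟩

/-- the type of the pair of blocks is determined -/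
theorem sameTp_of_lik (hSAM : T_SAM) (hL : Lnk P 𝔹 c) {w w' v v' : I → V} {z z' : I → V₀}
    (h : LikP 𝔹 c c₀ w w' z z') (h' : LikP 𝔹 c c₀ v v' z z') :
    SameTp 𝔹 (Sum.elim w w') (Sum.elim v v') := by
  have h1 := hSAM ρ V S X P 𝔹 c hL (I ⊕ I) (Sum.elim w w') (Sum.elim v v') h.1 h'.1
    (fun a b => (h.2 a b).2.symm.trans (h'.2 a b).2)
  exact ⟨fun i j => (h.2 i j).1.symm.trans (h'.2 i j).1, congrArg Prod.snd h1⟩

theorem shv_congr {H : (I → V) → (I → V) → S ⊕ X} (hH : Can2 𝔸 𝔹 c I H) {w w' v v' : I → V}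
    (h : SameTp 𝔹 (Sum.elim w w') (Sum.elim v v')) : shv P H w w' = shv P H v v' := by
  have h1 : H w w' = H v v' := hH.tinv _ _ _ _ h
  have h2 : H w w = H v v := by
    refine hH.tinv _ _ _ _ ?_
    have e : ∀ a b : I → V, Sum.elim a a = fun q => Sum.elim a b (Sum.elim Sum.inl Sum.inl q) := by
      intro a b
      funext q
      rcases q with q | q <;> rfl
    rw [e w w', e v v']
    exact SameTp.comp h _
  have h3 : H w' w' = H v' v' := by
    refine hH.tinv _ _ _ _ ?_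
    have e : ∀ a b : I → V, Sum.elim b b = fun q => Sum.elim a b (Sum.elim Sum.inr Sum.inr q) := by
      intro a b
      funext q
      rcases q with q | q <;> rfl
    rw [e w w', e v v']
    exact SameTp.comp h _
  unfold shv
  rw [h1, h2, h3]

omit [LinearOrder V] in
/-- a map with given types of values, whose different values are free -/
theorem exists_free (hs : Stp P (str0 V₀) M c₀) (hc : Col P c) {W : Type} [Finite W]
    (ψ : W → V) : ∃ ψ₀ : W → V₀, ∀ u w, (ψ u = ψ w → c₀ (ψ₀ u) (ψ₀ w) = c (ψ u) (ψ w)) ∧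
      (ψ u ≠ ψ w → c₀ (ψ₀ u) (ψ₀ w) = Sum.inr (P.fr (vt P c (ψ u)) (vt P c (ψ w)))) := by
  classical
  obtain ⟨n, ⟨e⟩⟩ := Finite.exists_equiv_fin (Set.range ψ)
  have hc0 := hs.col
  obtain ⟨f, hf1, hf2, hf3⟩ := hs.uni n (fun i => vt P c (e.symm i).1)
    (fun i j => P.fr (vt P c (e.symm i).1) (vt P c (e.symm j).1)) (by
      intro m s _ _ hne
      refine ⟨fun i => (hc0.surS (vt P c (e.symm (s i)).1)).choose,
        fun i => (hc0.surS (vt P c (e.symm (s i)).1)).choose_spec, fun i j hij => ?_⟩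
      exact absurd rfl (hne i j hij))
  refine ⟨fun w => f (e ⟨ψ w, w, rfl⟩), fun u w => ⟨fun h => ?_, fun h => ?_⟩⟩
  · have e1 : (⟨ψ u, u, rfl⟩ : Set.range ψ) = ⟨ψ w, w, rfl⟩ := Subtype.ext h
    beta_reduce
    rw [e1, hf2, e.symm_apply_apply, h]
    exact (Pool.Agent.H44.SO.Col.vt hc (ψ w)).symm
  · have hne : e ⟨ψ u, u, rfl⟩ ≠ e ⟨ψ w, w, rfl⟩ := fun h' =>
      h (congrArg Subtype.val (e.injective h'))
    rcases lt_or_gt_of_ne hne with h1 | h1
    · beta_reduce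
      rw [hf3 _ _ h1, e.symm_apply_apply, e.symm_apply_apply]
    · beta_reduce
      rw [hc0.swap _ _ _ (hf3 _ _ h1), e.symm_apply_apply, e.symm_apply_apply, P.rv_fr]

end

end SHB

open SHB

theorem pf_SHB (hSAM : T_SAM) : T_SHB := by
  classical
  intro σ ρ V S X _ P 𝔸 𝔹 M c hs V₀ _ c₀ hSh I _ H hH
  have hc := hs.lnk.col
  have har : ∀ l, 1 ≤ ρ.ar l := fun l => (hs.base.ar l).1
  choose w w' hw using fun z z' : I → V₀ => exists_lik (I := I) hSh z z'
  have hspec : SpecK P 𝔹 c c₀ H (fun z z' => shv P H (w z z') (w' z z')) := by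
    intro v v' z z' hv
    exact shv_congr hH (sameTp_of_lik hSAM hs.lnk (hw z z') hv)
  refine ⟨fun z z' => shv P H (w z z') (w' z z'), ⟨?_, ?_⟩, hspec⟩
  · intro z z' y y' h
    refine (hspec (w z z') (w' z z') z z' (hw z z')).trans
      (hspec (w z z') (w' z z') y y' ?_).symm
    exact ⟨(hw z z').1, fun i j => ⟨(h i j).1.symm.trans ((hw z z').2 i j).1,
      (h i j).2.symm.trans ((hw z z').2 i j).2⟩⟩
  · intro W _ G
    obtain ⟨y, h2, hy⟩ := hSh.lift (I × W) (fun q => G q.1 q.2)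
    obtain ⟨ψ, hψ1, hψ2⟩ := hH.comb W (fun i u => y (i, u))
    obtain ⟨ψ₀, hψ₀⟩ := exists_free hSh.stp hc ψ
    refine ⟨ψ₀, fun l z _ => trivial, fun u v => ?_⟩
    have h1 := hspec _ _ _ _ (lik_self (x := fun q : I × W => G q.1 q.2) har h2 hy u v)
    refine Eq.trans ?_ h1.symm
    unfold shv
    have k1 : H (fun i => y (i, u)) (fun i => y (i, v)) = c (ψ u) (ψ v) := (hψ2 u v).symm
    have k2 : H (fun i => y (i, u)) (fun i => y (i, u)) = c (ψ u) (ψ u) := (hψ2 u u).symm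
    have k3 : H (fun i => y (i, v)) (fun i => y (i, v)) = c (ψ v) (ψ v) := (hψ2 v v).symm
    rw [k1, k2, k3, hc.eq_iff]
    by_cases huv : ψ u = ψ v
    · rw [if_pos huv]
      exact (hψ₀ u v).1 huv
    · rw [if_neg huv]
      exact (hψ₀ u v).2 huv

end Pool.Agent.H77.AR
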